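import Pool.Agent.W483.FB.Stm

/-!
# Joint eigenbasis of commuting symmetric involutions
-/

set_option autoImplicit false

open Finset Matrix

namespace Pool.Agent.W253.FB

open Pool.Agent.W483.FB

variable {n : ℕ}

/-- joint eigenvectors -/
def Eig (C : Fin n → Mat n) (s : Fin n → Bool) (v : (Fin n → Bool) → ℝ) : Prop :=
  ∀ j, (C j).mulVec v = sg (s j) • v

theorem exists_eig (C : Fin n → Mat n) (h2 : ∀ j, C j * C j = 1)
    (h3 : ∀ i j, C i * C j = C j * C i) :
    ∃ s v, v ≠ 0 ∧ Eig C s v := by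
  classical
  have key : ∀ T : Finset (Fin n), ∃ (s : Fin n → Bool) (v : (Fin n → Bool) → ℝ), v ≠ 0 ∧
      ∀ j ∈ T, (C j).mulVec v = sg (s j) • v := by
    intro T
    induction T using Finset.induction_on with
    | empty =>
      refine ⟨fun _ => false, fun _ => 1, ?_, fun j hj => absurd hj (Finset.notMem_empty j)⟩
      intro h
      have := congrFun h (fun _ => false)
      simp at this
    | insert j T hj ih =>
      obtain ⟨s, v, hv, hs⟩ := ih
      by_cases h : v + (C j).mulVec v = 0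
      · have h' : (C j).mulVec v = -v := (neg_eq_of_add_eq_zero_right h).symm
        refine ⟨Function.update s j true, v, hv, fun k hk => ?_⟩
        rcases Finset.mem_insert.1 hk with rfl | hk
        · rw [Function.update_self, h']
          simp [sg]
        · have hkj : k ≠ j := fun e => hj (e ▸ hk)
          rw [Function.update_of_ne hkj]
          exact hs k hk
      · refine ⟨Function.update s j false, v + (C j).mulVec v, h, fun k hk => ?_⟩
        rcases Finset.mem_insert.1 hk with rfl | hk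
        · rw [Function.update_self, Matrix.mulVec_add, Matrix.mulVec_mulVec, h2,
            Matrix.one_mulVec]
          simp [sg, add_comm]
        · have hkj : k ≠ j := fun e => hj (e ▸ hk)
          rw [Function.update_of_ne hkj, Matrix.mulVec_add, Matrix.mulVec_mulVec, h3 k j,
            ← Matrix.mulVec_mulVec, hs k hk, Matrix.mulVec_smul, smul_add]
  obtain ⟨s, v, hv, h⟩ := key Finset.univ
  exact ⟨s, v, hv, fun j => h j (Finset.mem_univ j)⟩

theorem eig_flp (C D : Fin n → Mat n) (h4 : ∀ j, (D j)ᵀ * D j = 1)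
    (h5 : ∀ j, D j * C j = -(C j * D j)) (h6 : ∀ j k, j ≠ k → D j * C k = C k * D j)
    {s : Fin n → Bool} {v : (Fin n → Bool) → ℝ} (hv : v ≠ 0) (h : Eig C s v) (j : Fin n) :
    (D j).mulVec v ≠ 0 ∧ Eig C (flp j s) ((D j).mulVec v) := by
  constructor
  · intro h0
    apply hv
    have : ((D j)ᵀ).mulVec ((D j).mulVec v) = 0 := by rw [h0, Matrix.mulVec_zero]
    rwa [Matrix.mulVec_mulVec, h4, Matrix.one_mulVec] at this
  · intro k
    unfold flp
    by_cases hk : k = j
    · subst hk
      rw [Function.update_self]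
      have h7 : C k * D k = -(D k * C k) := by rw [h5, neg_neg]
      rw [Matrix.mulVec_mulVec, h7, Matrix.neg_mulVec, ← Matrix.mulVec_mulVec, h k,
        Matrix.mulVec_smul]
      cases s k <;> simp [sg]
    · rw [Function.update_of_ne hk, Matrix.mulVec_mulVec, ← h6 j k (Ne.symm hk),
        ← Matrix.mulVec_mulVec, h k, Matrix.mulVec_smul]

theorem exists_eig_all (C D : Fin n → Mat n) (h2 : ∀ j, C j * C j = 1)
    (h3 : ∀ i j, C i * C j = C j * C i) (h4 : ∀ j, (D j)ᵀ * D j = 1)
    (h5 : ∀ j, D j * C j = -(C j * D j)) (h6 : ∀ j k, j ≠ k → D j * C k = C k * D j)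
    (t : Fin n → Bool) : ∃ v, v ≠ 0 ∧ Eig C t v := by
  classical
  obtain ⟨s, v, hv, hs⟩ := exists_eig C h2 h3
  have key : ∀ T : Finset (Fin n), ∃ v, v ≠ 0 ∧ Eig C (T.piecewise t s) v := by
    intro T
    induction T using Finset.induction_on with
    | empty =>
      rw [Finset.piecewise_empty]
      exact ⟨v, hv, hs⟩
    | insert j T hj ih =>
      obtain ⟨w, hw, hw2⟩ := ih
      rw [Finset.piecewise_insert]
      by_cases h : t j = T.piecewise t s j
      · rw [h, Function.update_eq_self]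
        exact ⟨w, hw, hw2⟩
      · have h' : t j = !(T.piecewise t s j) := by
          revert h
          cases t j <;> cases T.piecewise t s j <;> simp
        rw [h']
        exact ⟨_, (eig_flp C D h4 h5 h6 hw hw2 j).1, (eig_flp C D h4 h5 h6 hw hw2 j).2⟩
  have h := key Finset.univ
  rwa [Finset.piecewise_univ] at h

theorem eig_orth (C : Fin n → Mat n) (h1 : ∀ j, (C j)ᵀ = C j) {s t : Fin n → Bool} (hst : s ≠ t)
    {v w : (Fin n → Bool) → ℝ} (hv : Eig C s v) (hw : Eig C t w) : v ⬝ᵥ w = 0 := by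
  obtain ⟨j, hj⟩ := Function.ne_iff.1 hst
  have h2 : (C j).mulVec v ⬝ᵥ w = v ⬝ᵥ (C j).mulVec w := by
    rw [Matrix.dotProduct_mulVec, ← Matrix.mulVec_transpose, h1]
  rw [hv j, hw j, smul_dotProduct, dotProduct_smul, smul_eq_mul, smul_eq_mul] at h2
  have h3 : (sg (s j) - sg (t j)) * (v ⬝ᵥ w) = 0 := by linarith
  rcases mul_eq_zero.1 h3 with h | h
  · exfalso
    apply hj
    revert h
    cases s j <;> cases t j <;> norm_num [sg]
  · exact h

theorem t_joint : S_joint := by
  intro n C D h1 h2 h3 h4 h5 h6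
  choose v hv hE using exists_eig_all C D h2 h3 h4 h5 h6
  have hpos : ∀ s, 0 < v s ⬝ᵥ v s := by
    intro s
    refine lt_of_le_of_ne ?_ (Ne.symm ?_)
    · exact Finset.sum_nonneg fun i _ => mul_self_nonneg _
    · intro h
      exact hv s (dotProduct_self_eq_zero.1 h)
  refine ⟨fun s => (√(v s ⬝ᵥ v s))⁻¹ • v s, ?_, fun s j => ?_⟩
  · intro a b
    have h7 : ∑ ω, ((√(v a ⬝ᵥ v a))⁻¹ • v a) ω * ((√(v b ⬝ᵥ v b))⁻¹ • v b) ω =
        (√(v a ⬝ᵥ v a))⁻¹ * (√(v b ⬝ᵥ v b))⁻¹ * (v a ⬝ᵥ v b) := by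
      unfold dotProduct
      rw [Finset.mul_sum]
      refine Finset.sum_congr rfl fun ω _ => ?_
      simp only [Pi.smul_apply, smul_eq_mul]
      ring
    rw [h7]
    by_cases hab : a = b
    · subst hab
      rw [if_pos rfl, ← mul_inv, Real.mul_self_sqrt (hpos a).le]
      exact inv_mul_cancel₀ (hpos a).ne'
    · rw [if_neg hab, eig_orth C h1 hab (hE a) (hE b), mul_zero]
  · show (C j).mulVec ((√(v s ⬝ᵥ v s))⁻¹ • v s) = sg (s j) • ((√(v s ⬝ᵥ v s))⁻¹ • v s)
    rw [Matrix.mulVec_smul, hE s j, smul_comm]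

end Pool.Agent.W253.FB
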